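import Pool.Agent.TH346.CG.Defs2

/-!
# A good scale
-/

set_option autoImplicit false

open Finset
open scoped Pointwise

namespace Pool.Agent.TH443.CG

open Pool.Agent.TH346.CG

section ksl

variable {Γ : Type} [AddCommGroup Γ] [DecidableEq Γ] {T : Finset Γ}

theorem mem_succ {k : ℕ} {x : Γ} : x ∈ ks (k + 1) T ↔ ∃ y ∈ ks k T, ∃ t ∈ T, y + t = x := by
  show x ∈ ks k T + T ↔ _
  rw [Finset.mem_add]

theorem zero_mem (h0 : 0 ∈ T) (k : ℕ) : 0 ∈ ks k T := by
  induction k with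
  | zero => exact Finset.mem_singleton_self _
  | succ k ih => exact mem_succ.2 ⟨0, ih, 0, h0, add_zero 0⟩

theorem mono_succ (h0 : 0 ∈ T) (k : ℕ) : ks k T ⊆ ks (k + 1) T := fun x hx =>
  mem_succ.2 ⟨x, hx, 0, h0, add_zero x⟩

theorem mono (h0 : 0 ∈ T) {a b : ℕ} (h : a ≤ b) : ks a T ⊆ ks b T := by
  induction h with
  | refl => exact subset_rfl
  | step _ ih => exact ih.trans (mono_succ h0 _)

theorem add_mem {a b : ℕ} {x y : Γ} (hx : x ∈ ks a T) (hy : y ∈ ks b T) :
    x + y ∈ ks (a + b) T := by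
  induction b generalizing y with
  | zero =>
    have h : y = 0 := Finset.mem_singleton.1 hy
    have h2 : x + y = x := by rw [h, add_zero]
    rw [h2]
    exact hx
  | succ b ih =>
    obtain ⟨z, hz, t, ht, rfl⟩ := mem_succ.1 hy
    show x + (z + t) ∈ ks (a + b + 1) T
    exact mem_succ.2 ⟨x + z, ih hz, t, ht, add_assoc x z t⟩

theorem neg_mem (hT : -T = T) {a : ℕ} {x : Γ} (hx : x ∈ ks a T) : -x ∈ ks a T := by
  induction a generalizing x with
  | zero =>
    have h : x = 0 := Finset.mem_singleton.1 hx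
    rw [h, neg_zero]
    exact Finset.mem_singleton_self _
  | succ a ih =>
    obtain ⟨z, hz, t, ht, rfl⟩ := mem_succ.1 hx
    refine mem_succ.2 ⟨-z, ih hz, -t, ?_, (neg_add z t).symm⟩
    rw [← hT]
    exact Finset.neg_mem_neg ht

theorem ks_ks {E : Finset Γ} {s : ℕ} (hE : ∀ e ∈ E, e ∈ ks s T) (k : ℕ) {h : Γ}
    (hh : h ∈ ks k E) : h ∈ ks (s * k) T := by
  induction k generalizing h with
  | zero => exact hh
  | succ k ih =>
    obtain ⟨z, hz, t, ht, rfl⟩ := mem_succ.1 hh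
    rw [Nat.mul_succ]
    exact add_mem (ih hz) (hE t ht)

theorem one_mem {t : Γ} (ht : t ∈ T) : t ∈ ks 1 T :=
  mem_succ.2 ⟨0, Finset.mem_singleton_self _, t, ht, zero_add t⟩

theorem nrm_mono (A : Finset Γ) {R R' : Finset Γ} (h : R ⊆ R') (a : Γ) : nrm A R a ≤ nrm A R' a := by
  unfold nrm
  exact card_le_card (filter_subset_filter _ h)

theorem nrm_add (A : Finset Γ) (hT : -T = T) (j s : ℕ) (a b : Γ) (ha : a ∈ ks s T) :
    nrm A (ks j T) (a + b) ≤ nrm A (ks j T) a + nrm A (ks (j + s) T) b := by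
  unfold nrm
  have h1 : ((ks j T).filter fun t => ¬ (t ∈ A ↔ t - (a + b) ∈ A)) ⊆
      ((ks j T).filter fun t => ¬ (t ∈ A ↔ t - a ∈ A)) ∪
      (((ks (j + s) T).filter fun t => ¬ (t ∈ A ↔ t - b ∈ A)).image fun t => t + a) := by
    intro t ht
    rw [mem_filter] at ht
    rw [mem_union, mem_filter, mem_image]
    by_cases h : t ∈ A ↔ t - a ∈ A
    · right
      refine ⟨t - a, ?_, sub_add_cancel t a⟩
      rw [mem_filter]
      refine ⟨?_, ?_⟩
      · rw [sub_eq_add_neg]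
        exact add_mem ht.1 (neg_mem hT ha)
      · rw [sub_sub, ← h]
        exact ht.2
    · exact Or.inl ⟨ht.1, h⟩
  refine (card_le_card h1).trans ((card_union_le _ _).trans ?_)
  exact Nat.add_le_add_left card_image_le _

theorem nrm_neg (A : Finset Γ) (j s : ℕ) (b : Γ) (hb : b ∈ ks s T) :
    nrm A (ks j T) (-b) ≤ nrm A (ks (j + s) T) b := by
  unfold nrm
  have h1 : ((ks j T).filter fun t => ¬ (t ∈ A ↔ t - -b ∈ A)) ⊆
      (((ks (j + s) T).filter fun t => ¬ (t ∈ A ↔ t - b ∈ A)).image fun t => t - b) := by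
    intro t ht
    rw [mem_filter] at ht
    rw [mem_image]
    refine ⟨t + b, ?_, add_sub_cancel_right t b⟩
    rw [mem_filter, add_sub_cancel_right]
    refine ⟨add_mem ht.1 hb, fun h => ht.2 ?_⟩
    rw [sub_neg_eq_add]
    exact h.symm
  exact (card_le_card h1).trans card_image_le

theorem nrm_sub' (A : Finset Γ) (hT : -T = T) (j s : ℕ) (h0 : 0 ∈ T) (a b : Γ)
    (ha : a ∈ ks s T) (hb : b ∈ ks s T) :
    nrm A (ks j T) (a - b) ≤ nrm A (ks (j + 2 * s) T) a + nrm A (ks (j + 2 * s) T) b := by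
  rw [sub_eq_add_neg]
  refine (nrm_add A hT j s a (-b) ha).trans (Nat.add_le_add ?_ ?_)
  · exact nrm_mono A (mono h0 (by omega)) a
  · refine (nrm_neg A (j + s) s b hb).trans (nrm_mono A (mono h0 (by omega)) b)

theorem nrm_ks' (A E : Finset Γ) (hT : -T = T) (k s q n : ℕ) (j : ℕ)
    (hE : ∀ e ∈ E, e ∈ ks s T ∧ q * nrm A (ks (j + s * k) T) e ≤ n) (h0 : 0 ∈ T) (h : Γ)
    (hh : h ∈ ks k E) : q * nrm A (ks j T) h ≤ k * n := by
  induction k generalizing j h with
  | zero =>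
    have h1 : h = 0 := Finset.mem_singleton.1 hh
    rw [h1]
    unfold nrm
    simp
  | succ k ih =>
    obtain ⟨z, hz, e, he, rfl⟩ := mem_succ.1 hh
    have h1 := nrm_add A hT j s e z (hE e he).1
    have h2 := ih (j + s) (fun e' he' => ⟨(hE e' he').1, by
      have h3 := (hE e' he').2
      rw [show j + s * (k + 1) = j + s + s * k by ring] at h3
      exact h3⟩) z hz
    have h3 : q * nrm A (ks j T) e ≤ n :=
      (Nat.mul_le_mul_left q (nrm_mono A (mono h0 (Nat.le_add_right _ _)) e)).trans (hE e he).2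
    rw [add_comm z e]
    calc q * nrm A (ks j T) (e + z) ≤ q * (nrm A (ks j T) e + nrm A (ks (j + s) T) z) :=
          Nat.mul_le_mul_left q h1
      _ = q * nrm A (ks j T) e + q * nrm A (ks (j + s) T) z := Nat.mul_add _ _ _
      _ ≤ n + k * n := Nat.add_le_add h3 h2
      _ = (k + 1) * n := by ring

theorem ks_eq_rec (k : ℕ) (D : Finset Γ) : ks k D = nsmulRec k D := by
  induction k with
  | zero => rfl
  | succ k ih =>
    show ks k D + D = nsmulRec k D + D
    rw [ih]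

end ksl

section main

variable {Γ : Type} [AddCommGroup Γ] [DecidableEq Γ] {S : Finset Γ}

theorem neg_ins (hS : -S = S) : -(insert 0 S) = insert 0 S := by
  ext x
  rw [Finset.mem_neg', Finset.mem_insert, Finset.mem_insert, neg_eq_zero]
  have h : -x ∈ S ↔ x ∈ S := by
    conv_rhs => rw [← hS]
    rw [Finset.mem_neg']
  rw [h]

theorem card_ins (hne : S.Nonempty) : (insert 0 S).card ≤ 2 * S.card := by
  have h1 := Finset.card_insert_le 0 S
  have h2 := hne.card_pos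
  omega

theorem card_three (K : ℕ) (hne : S.Nonempty) (hK : (S + S + S).card ≤ K * S.card) :
    (ks 3 (insert 0 S)).card ≤ 4 * K * S.card := by
  have h1 : ks 3 (insert 0 S) ⊆ ((({0} : Finset Γ) ∪ S) ∪ (S + S)) ∪ (S + S + S) := by
    intro x hx
    obtain ⟨y, hy, c, hc, rfl⟩ := mem_succ.1 hx
    obtain ⟨z, hz, b, hb, rfl⟩ := mem_succ.1 hy
    obtain ⟨w, hw, a, ha, rfl⟩ := mem_succ.1 hz
    have h2 : w = 0 := Finset.mem_singleton.1 hw
    rw [h2, zero_add]
    rw [Finset.mem_insert] at ha hb hc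
    simp only [Finset.mem_union, Finset.mem_singleton]
    rcases ha with rfl | ha <;> rcases hb with rfl | hb <;> rcases hc with rfl | hc
    · left; left; left; simp
    · left; left; right; simpa using hc
    · left; left; right; simpa using hb
    · left; right; rw [zero_add]; exact Finset.add_mem_add hb hc
    · left; left; right; simpa using ha
    · left; right; rw [add_zero]; exact Finset.add_mem_add ha hc
    · left; right; rw [add_zero]; exact Finset.add_mem_add ha hb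
    · right; exact Finset.add_mem_add (Finset.add_mem_add ha hb) hc
  have h2 : S.card ≤ (S + S).card := Finset.card_le_card_add_right hne
  have h3 : (S + S).card ≤ (S + S + S).card := Finset.card_le_card_add_right hne
  have h4 := hne.card_pos
  have h5 := card_le_card h1
  have h6 := card_union_le ((({0} : Finset Γ) ∪ S) ∪ (S + S)) (S + S + S)
  have h7 := card_union_le (({0} : Finset Γ) ∪ S) (S + S)
  have h8 := card_union_le ({0} : Finset Γ) S
  rw [card_singleton] at h8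
  have h9 : 4 * K * S.card = 4 * (K * S.card) := by ring
  omega

theorem card_ks (K : ℕ) (hne : S.Nonempty) (hS : -S = S) (hK : (S + S + S).card ≤ K * S.card)
    (m : ℕ) : (ks m (insert 0 S)).card ≤ 2 * (4 * K + 1) ^ m * S.card := by
  have h0 : (0 : Γ) ∈ insert 0 S := Finset.mem_insert_self _ _
  have hT := neg_ins hS
  have hT2 := card_ins hne
  have h3 := card_three K hne hK
  have hle : S.card ≤ (insert 0 S).card := card_le_card (Finset.subset_insert _ _)
  rcases Nat.lt_or_ge m 3 with hm | hm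
  · interval_cases m
    · have h4 : (ks 0 (insert 0 S)).card = 1 := Finset.card_singleton _
      have := hne.card_pos
      rw [h4, pow_zero]
      omega
    · have h4 : ks 1 (insert 0 S) = insert 0 S := by
        show ({0} : Finset Γ) + insert 0 S = insert 0 S
        rw [Finset.singleton_zero, zero_add]
      rw [h4]
      nlinarith
    · have h4 := card_le_card (mono h0 (show 2 ≤ 3 by omega) : ks 2 (insert 0 S) ⊆ _)
      nlinarith
  · have h4 := Finset.small_nsmul_of_small_tripling (A := insert 0 S)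
      (K := ((4 * K + 1 : ℕ) : ℝ)) (m := m) hm
      (by
        have h5 : ((ks 3 (insert 0 S)).card : ℝ) ≤
            ((4 * K + 1 : ℕ) : ℝ) * ((insert 0 S).card : ℝ) := by
          have h6 : (ks 3 (insert 0 S)).card ≤ (4 * K + 1) * (insert 0 S).card := by nlinarith
          exact_mod_cast h6
        rw [ks_eq_rec] at h5
        exact h5) hT
    have h5 : ((ks m (insert 0 S)).card : ℝ) ≤
        ((4 * K + 1 : ℕ) : ℝ) ^ (m - 2) * ((insert 0 S).card : ℝ) := by
      rw [ks_eq_rec]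
      exact h4
    have h6 : (ks m (insert 0 S)).card ≤ (4 * K + 1) ^ (m - 2) * (insert 0 S).card := by
      exact_mod_cast h5
    calc (ks m (insert 0 S)).card ≤ (4 * K + 1) ^ (m - 2) * (insert 0 S).card := h6
      _ ≤ (4 * K + 1) ^ m * (2 * S.card) :=
          Nat.mul_le_mul (Nat.pow_le_pow_right (by omega) (by omega)) hT2
      _ = 2 * (4 * K + 1) ^ m * S.card := by ring

/-- the set of the scale `(q, j)` -/
def EE (A S : Finset Γ) (q j : ℕ) : Finset Γ :=
  (ks 2 (insert 0 S)).filter fun a => q * nrm A (ks j (insert 0 S)) a ≤ S.card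

theorem mem_EE {A S : Finset Γ} {q j : ℕ} {a : Γ} : a ∈ EE A S q j ↔
    a ∈ ks 2 (insert 0 S) ∧ q * nrm A (ks j (insert 0 S)) a ≤ S.card := by
  unfold EE
  rw [mem_filter]

theorem zero_EE (A S : Finset Γ) (q j : ℕ) : 0 ∈ EE A S q j := by
  rw [mem_EE]
  refine ⟨zero_mem (Finset.mem_insert_self _ _) 2, ?_⟩
  unfold nrm
  simp

theorem step1 (A : Finset Γ) (K : ℕ) (hne : S.Nonempty) (hS : -S = S)
    (hK : (S + S + S).card ≤ K * S.card) (q j : ℕ) :
    (ks 4 (EE A S (q * 8) (j + 24))).card ≤ 2 * (4 * K + 1) ^ 9 * (EE A S q j).card := by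
  obtain ⟨T, hTd⟩ : ∃ T : Finset Γ, T = insert 0 S := ⟨_, rfl⟩
  have h0 : (0 : Γ) ∈ T := by rw [hTd]; exact Finset.mem_insert_self _ _
  have hT : -T = T := by rw [hTd]; exact neg_ins hS
  have hle : S.card ≤ T.card := by rw [hTd]; exact card_le_card (Finset.subset_insert _ _)
  have h8 : ∀ a ∈ ks 4 (EE A S (q * 8) (j + 24)), a ∈ ks 8 T := by
    intro a ha
    rw [hTd]
    exact ks_ks (s := 2) (fun e he => (mem_EE.1 he).1) 4 ha
  have hn : ∀ a ∈ ks 4 (EE A S (q * 8) (j + 24)), q * 8 * nrm A (ks (j + 16) T) a ≤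
      4 * S.card := by
    intro a ha
    rw [hTd] at hT h0 ⊢
    exact nrm_ks' A _ hT 4 2 (q * 8) S.card (j + 16) (fun e he => mem_EE.1 he) h0 a ha
  have hc : (ks 4 (EE A S (q * 8) (j + 24)) + T).card ≤ 2 * (4 * K + 1) ^ 9 * T.card := by
    have h1 : ks 4 (EE A S (q * 8) (j + 24)) + T ⊆ ks 9 T := by
      intro x hx
      obtain ⟨y, hy, t, ht, rfl⟩ := Finset.mem_add.1 hx
      exact mem_succ.2 ⟨y, h8 y hy, t, ht, rfl⟩
    refine (card_le_card h1).trans ?_
    have h2 := card_ks K hne hS hK 9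
    rw [← hTd] at h2
    exact h2.trans (Nat.mul_le_mul_left _ hle)
  obtain ⟨F, hF1, hF2, hF3⟩ := Finset.ruzsa_covering_add (A := ks 4 (EE A S (q * 8) (j + 24)))
    (B := T) (K := ((2 * (4 * K + 1) ^ 9 : ℕ) : ℝ)) ⟨0, h0⟩ (by exact_mod_cast hc)
  have hF2' : F.card ≤ 2 * (4 * K + 1) ^ 9 := by exact_mod_cast hF2
  have hsub : ks 4 (EE A S (q * 8) (j + 24)) ⊆ F + EE A S q j := by
    intro a ha
    obtain ⟨f, hf, w, hw, hfw⟩ := Finset.mem_add.1 (hF3 ha)
    refine Finset.mem_add.2 ⟨f, hf, w, ?_, hfw⟩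
    rw [mem_EE, ← hTd]
    obtain ⟨t, ht, t', ht', rfl⟩ := Finset.mem_sub.1 hw
    refine ⟨?_, ?_⟩
    · rw [sub_eq_add_neg]
      refine mem_succ.2 ⟨t, one_mem ht, -t', ?_, rfl⟩
      rw [← hT]
      exact Finset.neg_mem_neg ht'
    · have h1 : t - t' = a - f := by rw [← hfw, add_sub_cancel_left]
      rw [h1]
      have h2 := nrm_sub' A hT j 8 h0 a f (h8 a ha) (h8 f (hF1 hf))
      have h3 := hn a ha
      have h4 := hn f (hF1 hf)
      have h5 : q * 8 * nrm A (ks j T) (a - f) ≤ 8 * S.card := by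
        calc q * 8 * nrm A (ks j T) (a - f) ≤
            q * 8 * (nrm A (ks (j + 16) T) a + nrm A (ks (j + 16) T) f) :=
              Nat.mul_le_mul_left _ h2
          _ = q * 8 * nrm A (ks (j + 16) T) a + q * 8 * nrm A (ks (j + 16) T) f :=
              Nat.mul_add _ _ _
          _ ≤ 8 * S.card := by omega
      nlinarith
  calc (ks 4 (EE A S (q * 8) (j + 24))).card ≤ (F + EE A S q j).card := card_le_card hsub
    _ ≤ F.card * (EE A S q j).card := Finset.card_add_le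
    _ ≤ 2 * (4 * K + 1) ^ 9 * (EE A S q j).card := Nat.mul_le_mul_right _ hF2'

theorem step2 (A : Finset Γ) (C d K : ℕ) (hne : S.Nonempty) (hS : -S = S)
    (hK : (S + S + S).card ≤ K * S.card) (hP : Pack C d A) (q j : ℕ) (hq : 1 ≤ q) :
    ∃ U : Finset Γ, U.card ≤ C * (2 * (4 * K + 1) ^ (j + 1) * q) ^ d ∧
      ∀ s ∈ S, ∃ u ∈ U, s - u ∈ EE A S q j := by
  obtain ⟨T, hTd⟩ : ∃ T : Finset Γ, T = insert 0 S := ⟨_, rfl⟩
  have h0 : (0 : Γ) ∈ T := by rw [hTd]; exact Finset.mem_insert_self _ _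
  have hT : -T = T := by rw [hTd]; exact neg_ins hS
  have hST : ∀ s ∈ S, s ∈ T := fun s hs => by rw [hTd]; exact Finset.mem_insert_of_mem hs
  classical
  obtain ⟨U, hU, hmax⟩ := Finset.exists_max_image
    (S.powerset.filter fun U => ∀ u ∈ U, ∀ v ∈ U, u ≠ v →
      ¬ (u - v ∈ EE A S q j ∧ v - u ∈ EE A S q j)) Finset.card
    ⟨∅, by
      rw [mem_filter]
      exact ⟨Finset.empty_mem_powerset _, fun u hu => absurd hu (Finset.notMem_empty u)⟩⟩
  rw [mem_filter, mem_powerset] at hU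
  obtain ⟨hUS, hUP⟩ := hU
  have hkey : ∀ u ∈ U, ∀ v ∈ U, u - v ∉ EE A S q j → (ks (j + 1) T).card ≤
      2 * (4 * K + 1) ^ (j + 1) * q *
        ((ks (j + 1) T).filter fun z => ¬ (z - u ∈ A ↔ z - v ∈ A)).card := by
    intro u hu v hv h
    have h1 : u - v ∈ ks 2 T := by
      rw [sub_eq_add_neg]
      refine mem_succ.2 ⟨u, one_mem (hST u (hUS hu)), -v, ?_, rfl⟩
      rw [← hT]
      exact Finset.neg_mem_neg (hST v (hUS hv))
    have h2 : S.card < q * nrm A (ks j T) (u - v) := by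
      by_contra h3
      apply h
      rw [mem_EE, ← hTd]
      exact ⟨h1, not_lt.1 h3⟩
    have h3 : nrm A (ks j T) (u - v) ≤
        ((ks (j + 1) T).filter fun z => ¬ (z - u ∈ A ↔ z - v ∈ A)).card := by
      unfold nrm
      have h4 : ((ks j T).filter fun t => ¬ (t ∈ A ↔ t - (u - v) ∈ A)) ⊆
          (((ks (j + 1) T).filter fun z => ¬ (z - u ∈ A ↔ z - v ∈ A)).image fun z => z - v) := by
        intro t ht
        rw [mem_filter] at ht
        rw [mem_image]
        refine ⟨t + v, ?_, add_sub_cancel_right t v⟩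
        rw [mem_filter, add_sub_cancel_right]
        refine ⟨mem_succ.2 ⟨t, ht.1, v, hST v (hUS hv), rfl⟩, fun h5 => ht.2 ?_⟩
        have h6 : t - (u - v) = t + v - u := by abel
        rw [h6]
        exact h5.symm
      exact (card_le_card h4).trans card_image_le
    have h4 := card_ks K hne hS hK (j + 1)
    rw [← hTd] at h4
    have h5 : S.card ≤ q * ((ks (j + 1) T).filter fun z => ¬ (z - u ∈ A ↔ z - v ∈ A)).card :=
      h2.le.trans (Nat.mul_le_mul_left q h3)
    calc (ks (j + 1) T).card ≤ 2 * (4 * K + 1) ^ (j + 1) * S.card := h4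
      _ ≤ 2 * (4 * K + 1) ^ (j + 1) *
          (q * ((ks (j + 1) T).filter fun z => ¬ (z - u ∈ A ↔ z - v ∈ A)).card) :=
          Nat.mul_le_mul_left _ h5
      _ = _ := by rw [Nat.mul_assoc (2 * (4 * K + 1) ^ (j + 1)) q]
  refine ⟨U, ?_, ?_⟩
  · apply hP (ks (j + 1) T) U (2 * (4 * K + 1) ^ (j + 1) * q)
    · have : 0 < 2 * (4 * K + 1) ^ (j + 1) * q := by positivity
      exact this
    · exact ⟨0, zero_mem h0 _⟩
    · intro u hu v hv huv
      by_cases h : u - v ∈ EE A S q j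
      · have h1 : v - u ∉ EE A S q j := fun h2 => hUP u hu v hv huv ⟨h, h2⟩
        have h3 := hkey v hv u hu h1
        have h4 : ((ks (j + 1) T).filter fun z => ¬ (z - v ∈ A ↔ z - u ∈ A)) =
            ((ks (j + 1) T).filter fun z => ¬ (z - u ∈ A ↔ z - v ∈ A)) := by
          apply filter_congr
          intro z _
          rw [not_iff_not]
          exact Iff.comm
        rw [h4] at h3
        exact h3
      · exact hkey u hu v hv h
  · intro s hs
    by_cases hsU : s ∈ U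
    · exact ⟨s, hsU, by rw [sub_self]; exact zero_EE A S q j⟩
    · by_contra hcon
      push Not at hcon
      have h1 : insert s U ∈ (S.powerset.filter fun U => ∀ u ∈ U, ∀ v ∈ U, u ≠ v →
          ¬ (u - v ∈ EE A S q j ∧ v - u ∈ EE A S q j)) := by
        rw [mem_filter, mem_powerset]
        refine ⟨Finset.insert_subset hs hUS, ?_⟩
        intro u hu v hv huv
        rw [mem_insert] at hu hv
        rcases hu with rfl | hu <;> rcases hv with rfl | hv
        · exact absurd rfl huv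
        · exact fun h => hcon v hv h.1
        · exact fun h => hcon u hu h.2
        · exact hUP u hu v hv huv
      have h2 := hmax _ h1
      rw [card_insert_of_notMem hsU] at h2
      omega

end main

theorem good_scale (C d K : ℕ) : ∃ K₁ : ℕ, ∀ q₀ j₀ : ℕ, 1 ≤ q₀ → ∃ L : ℕ,
    ∀ (Γ : Type) [AddCommGroup Γ] [DecidableEq Γ] (A S : Finset Γ), S.Nonempty → -S = S →
      (S + S + S).card ≤ K * S.card → Pack C d A →
      ∃ q j : ℕ, q₀ ≤ q ∧ j₀ ≤ j ∧ ∃ E : Finset Γ,
        (∀ a, a ∈ E ↔ a ∈ ks 2 (insert 0 S) ∧ q * nrm A (ks j (insert 0 S)) a ≤ S.card) ∧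
        (ks 4 E).card ≤ K₁ * E.card ∧
        ∃ Y : Finset Γ, Y.card ≤ L ∧ ∀ s ∈ S, ∃ y ∈ Y, s - y ∈ E := by
  obtain ⟨B, hB⟩ : ∃ B : ℕ, B = ((4 * K + 1) ^ 24 * 8) ^ d := ⟨_, rfl⟩
  have hB1 : 1 ≤ B := by
    rw [hB]
    exact Nat.one_le_iff_ne_zero.2 (by positivity)
  refine ⟨2 * B * (2 * (4 * K + 1) ^ 9), ?_⟩
  intro q₀ j₀ hq₀
  obtain ⟨M₀, hM₀⟩ : ∃ M₀ : ℕ, M₀ = C * (2 * (4 * K + 1) ^ (j₀ + 1) * q₀) ^ d := ⟨_, rfl⟩
  obtain ⟨n, hn⟩ : ∃ n : ℕ, n = 2 * (4 * K + 1) ^ 2 * M₀ := ⟨_, rfl⟩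
  have hM : ∀ i : ℕ, C * (2 * (4 * K + 1) ^ (j₀ + 24 * i + 1) * (q₀ * 8 ^ i)) ^ d = M₀ * B ^ i := by
    intro i
    have h : 2 * (4 * K + 1) ^ (j₀ + 24 * i + 1) * (q₀ * 8 ^ i) =
        (2 * (4 * K + 1) ^ (j₀ + 1) * q₀) * ((4 * K + 1) ^ 24 * 8) ^ i := by
      rw [mul_pow, ← pow_mul, show j₀ + 24 * i + 1 = (j₀ + 1) + 24 * i by ring, pow_add]
      ring
    rw [hM₀, hB, h, mul_pow, ← pow_mul, ← pow_mul, mul_comm i d]
    exact (mul_assoc _ _ _).symm
  refine ⟨M₀ * B ^ n, ?_⟩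
  intro Γ _ _ A S hne hS hK hP
  by_contra hcon
  -- the covering by translates
  have hcov : ∀ i : ℕ, i ≤ n → ∃ U : Finset Γ, U.card ≤ M₀ * B ^ i ∧
      ∀ s ∈ S, ∃ u ∈ U, s - u ∈ EE A S (q₀ * 8 ^ i) (j₀ + 24 * i) := by
    intro i _
    obtain ⟨U, h1, h2⟩ := step2 A C d K hne hS hK hP (q₀ * 8 ^ i) (j₀ + 24 * i)
      (Nat.one_le_iff_ne_zero.2 (by positivity))
    exact ⟨U, by rw [← hM i]; exact h1, h2⟩
  have hbig : ∀ i : ℕ, i ≤ n → 2 * B * (2 * (4 * K + 1) ^ 9) *
      (EE A S (q₀ * 8 ^ i) (j₀ + 24 * i)).card <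
      (ks 4 (EE A S (q₀ * 8 ^ i) (j₀ + 24 * i))).card := by
    intro i hi
    by_contra h
    apply hcon
    refine ⟨q₀ * 8 ^ i, j₀ + 24 * i, Nat.le_mul_of_pos_right _ (by positivity),
      Nat.le_add_right _ _, EE A S (q₀ * 8 ^ i) (j₀ + 24 * i), fun a => mem_EE, not_lt.1 h, ?_⟩
    obtain ⟨U, h1, h2⟩ := hcov i hi
    exact ⟨U, h1.trans (Nat.mul_le_mul_left _ (Nat.pow_le_pow_right hB1 hi)), h2⟩
  have hdec : ∀ i : ℕ, i ≤ n → (2 * B) ^ i * (EE A S (q₀ * 8 ^ i) (j₀ + 24 * i)).card ≤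
      2 * (4 * K + 1) ^ 2 * S.card := by
    intro i
    induction i with
    | zero =>
      intro _
      rw [pow_zero, one_mul]
      have h1 : EE A S (q₀ * 8 ^ 0) (j₀ + 24 * 0) ⊆ ks 2 (insert 0 S) := filter_subset _ _
      exact (card_le_card h1).trans (card_ks K hne hS hK 2)
    | succ i ih =>
      intro hi
      have h1 := ih (by omega)
      have h2 := hbig (i + 1) hi
      have h3 := step1 A K hne hS hK (q₀ * 8 ^ i) (j₀ + 24 * i)
      rw [show q₀ * 8 ^ (i + 1) = q₀ * 8 ^ i * 8 by ring,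
        show j₀ + 24 * (i + 1) = j₀ + 24 * i + 24 by ring] at h2 ⊢
      obtain ⟨e', he'⟩ : ∃ e', e' = (EE A S (q₀ * 8 ^ i * 8) (j₀ + 24 * i + 24)).card := ⟨_, rfl⟩
      obtain ⟨e, he⟩ : ∃ e, e = (EE A S (q₀ * 8 ^ i) (j₀ + 24 * i)).card := ⟨_, rfl⟩
      rw [← he'] at h2 ⊢
      rw [← he] at h1 h3
      have h4 : 2 * (4 * K + 1) ^ 9 * (2 * B * e') < 2 * (4 * K + 1) ^ 9 * e := by
        calc 2 * (4 * K + 1) ^ 9 * (2 * B * e') = 2 * B * (2 * (4 * K + 1) ^ 9) * e' := by ring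
          _ < _ := h2
          _ ≤ _ := h3
      have h5 : 2 * B * e' < e := Nat.lt_of_mul_lt_mul_left h4
      calc (2 * B) ^ (i + 1) * e' = (2 * B) ^ i * (2 * B * e') := by ring
        _ ≤ (2 * B) ^ i * e := Nat.mul_le_mul_left _ h5.le
        _ ≤ _ := h1
  obtain ⟨U, hU1, hU2⟩ := hcov n le_rfl
  have hlast := hdec n le_rfl
  obtain ⟨E, hE⟩ : ∃ E, E = EE A S (q₀ * 8 ^ n) (j₀ + 24 * n) := ⟨_, rfl⟩
  rw [← hE] at hU2 hlast
  have hEpos : 1 ≤ E.card := by
    rw [hE]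
    exact Finset.card_pos.2 ⟨0, zero_EE _ _ _ _⟩
  have hSle : S.card ≤ M₀ * B ^ n * E.card := by
    have h1 : S ⊆ U + E := by
      intro s hs
      obtain ⟨u, hu, hsu⟩ := hU2 s hs
      exact Finset.mem_add.2 ⟨u, hu, s - u, hsu, add_sub_cancel u s⟩
    exact (card_le_card h1).trans (Finset.card_add_le.trans (Nat.mul_le_mul_right _ hU1))
  have hfin : 2 ^ n * (B ^ n * E.card) ≤ n * (B ^ n * E.card) := by
    calc 2 ^ n * (B ^ n * E.card) = (2 * B) ^ n * E.card := by rw [mul_pow]; ring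
      _ ≤ 2 * (4 * K + 1) ^ 2 * S.card := hlast
      _ ≤ 2 * (4 * K + 1) ^ 2 * (M₀ * B ^ n * E.card) := Nat.mul_le_mul_left _ hSle
      _ = n * (B ^ n * E.card) := by rw [hn]; ring
  have hpos : 0 < B ^ n * E.card := Nat.mul_pos (pow_pos hB1 n) hEpos
  have h2n : 2 ^ n ≤ n := Nat.le_of_mul_le_mul_right hfin hpos
  have := Nat.lt_two_pow_self (n := n)
  omega

end Pool.Agent.TH443.CG
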